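import Pool.Agent.Lib.MP_181146_gt.HP.All
import Pool.Agent.Lib.MP_181146_gt.HS.SlimT

/-!
# Finiteness obstruction of H-spaces with few elements of order two in the fundamental group
-/

namespace Pool.Agent.Results.MP_181146_gt.FewInvolutions

open HSp

/-- **Theorem.**  Let `X` be a path-connected, locally path-connected H-space (`μ : X × X → X`
continuous, its restriction to `X ∨ X` freely homotopic to the fold map), `p : E → X` its universal
covering, and suppose that the group `Deck p` of deck transformations (isomorphic to the fundamental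
group of `X`) is finite.  Let `C` be a bounded complex of finitely generated projective modules over
the group ring `ℤ[Deck p]` which is chain homotopy equivalent over `ℤ[Deck p]` to the singular chain
complex of `E`.  Suppose that `H_i(E) = 0` for `0 < i < n`, `n = 4 j + 3`, that the rank of `H_n(E)` is
at least `s` (there are `s` cycles no nontrivial integral combination of which is a boundary), and that
`Deck p` has fewer than `2 ^ s` elements `g` with `g ^ 2 = 1`.  Then `C_even ⊕ Λ^a ≅ C_odd ⊕ Λ^a` for
some `a`, `Λ = ℤ[Deck p]`; in particular `∑ (-1)^i [C_i] = 0` in the reduced projective class group. -/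
theorem result {X E : Type} [TopologicalSpace X] [TopologicalSpace E] [PathConnectedSpace X]
    [LocallyPathConnectedSpace X] [SimplyConnectedSpace E] (e : X) (μ : C(X × X, X))
    (hμ : IsHMul e μ) (p : E → X) (hp : IsCoveringMap p) (hf : Finite (Deck p))
    (C : Cpl (GR (Deck p))) (K : ℕ) (hC : C.IsPerf K) (heq : EqvSing (Deck p) C) (j : ℕ)
    (hE : ∀ i, i < 4 * j + 2 → ∀ x : SI E (i + 1), bdS E i x = 0 → ∃ y, bdS E (i + 1) y = x)
    (s : ℕ) (z : Fin s → SI E (4 * j + 3)) (hz : ∀ i, bdS E (4 * j + 2) (z i) = 0)
    (hind : ∀ c : Fin s → ℤ, (∃ w, bdS E (4 * j + 3) w = ∑ i, c i • z i) → c = 0)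
    (hs : Nat.card {g : Deck p // g * g = 1} < 2 ^ s) :
    ∃ a : ℕ, C.StEq K a a :=
  HPx.pPStop X E p hp e μ hμ hf C K hC heq j hE s z hz hind hs

end Pool.Agent.Results.MP_181146_gt.FewInvolutions
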